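import Pool.Agent.Y995.HG.UpS
import Pool.Agent.X145.EV.Ae

/-!
Project TT: the exploration path at typical times.
-/

set_option autoImplicit false

namespace Pool.Agent.X145.TT

open H974 Finset H342P H984P H984N Pool.Agent.Y985.ME Pool.Agent.Y995.FS Pool.Agent.Y995.HG
open MeasureTheory Filter Topology
open scoped ENNReal

/-- the natural time spent in the disc of radius `r` around the point of time `t` -/
noncomputable def occ (p : X) (t : unitInterval) (r : ℝ) : ℝ :=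
  p.2 * (volume {u : unitInterval | dist (p.1 u) (p.1 t) ≤ r}).toReal

theorem occ_mono {p : X} (hp : 0 < p.2) (t : unitInterval) {r r' : ℝ} (h : r ≤ r') :
    occ p t r ≤ occ p t r' := by
  unfold occ
  refine mul_le_mul_of_nonneg_left (ENNReal.toReal_mono (measure_ne_top _ _)
    (measure_mono fun u hu => ?_)) hp.le
  exact le_trans hu h

theorem occ_up {l : ℝ} (hl : 0 < l) {p : X} (hp : 0 < p.2) {t : unitInterval}
    (h : ∀ᶠ j : ℕ in atTop, occ p t (((1:ℝ)/2) ^ j) < 2 * av l j) :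
    ∀ᶠ r in 𝓝[>] (0:ℝ), occ p t r ≤ Cl l * ga r := by
  obtain ⟨j0, hj0⟩ := eventually_atTop.1 (h.and (eventually_ge_atTop 3))
  have h1 : ∀ᶠ r in 𝓝[>] (0:ℝ), r < ((1:ℝ)/2) ^ j0 :=
    eventually_nhdsWithin_of_eventually_nhds (gt_mem_nhds (by positivity))
  filter_upwards [h1, self_mem_nhdsWithin] with r hr hr0
  have hr0' : 0 < r := hr0
  obtain ⟨n, hn1, hn2⟩ := exists_nat_pow_near_of_lt_one hr0'
    (hr.le.trans (pow_le_one₀ (by norm_num) (by norm_num)))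
    (by norm_num : (0:ℝ) < 1/2) (by norm_num)
  have hnj : j0 ≤ n := by
    by_contra hcon
    push Not at hcon
    have : ((1:ℝ)/2) ^ j0 ≤ ((1:ℝ)/2) ^ (n + 1) :=
      pow_le_pow_of_le_one (by norm_num) (by norm_num) (by omega)
    linarith
  obtain ⟨g1, g2⟩ := hj0 n hnj
  exact (occ_mono hp t hn2).trans (g1.le.trans (av_ga hl g2 hn1 hn2))

/-- density: if the gauge measure of all sets is at most `C T |S|`, then the occupation time around
almost every time is infinitely often at least a small multiple of the gauge -/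
theorem occ_low_ae {l C : ℝ} (hl : 0 < l) (hC : 0 < C) (hlC : Cl l * C < 1) {p : X}
    (hp : 0 < p.2) (h : ∀ S : Set unitInterval,
      Measure.mkMetric gm (p.1 '' S) ≤ ENNReal.ofReal (C * p.2) * volume S) :
    ∀ᵐ t : unitInterval, ∃ᶠ j : ℕ in atTop, 2 * av l j ≤ occ p t (((1:ℝ)/2) ^ j) := by
  obtain ⟨G, hG⟩ : ∃ G : ℕ → Set unitInterval, G = fun j0 => {t | ∀ j : ℕ, j0 ≤ j → p.2 *
      (volume {u : unitInterval | dist (p.1 u) (p.1 t) ≤ ((1:ℝ)/2) ^ j}).toReal < 2 * av l j} :=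
    ⟨_, rfl⟩
  have hCl := Cl_pos hl
  have key : ∀ j0 : ℕ, 3 ≤ j0 → volume (G j0) = 0 := by
    intro j0 hj3
    have h1 : ENNReal.ofReal p.2 * volume (G j0) ≤
        ENNReal.ofReal (Cl l) * Measure.mkMetric gm (p.1 '' G j0) := by
      rw [← ENNReal.inv_mul_le_iff (by rw [Ne, ENNReal.ofReal_eq_zero]; linarith)
        ENNReal.ofReal_ne_top, Measure.mkMetric_apply]
      refine le_trans ?_ (le_iSup₂ (ENNReal.ofReal (((1:ℝ)/2) ^ j0))
        (ENNReal.ofReal_pos.mpr (by positivity)))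
      refine le_iInf fun E => le_iInf fun hE => le_iInf fun hdiam => ?_
      rw [ENNReal.inv_mul_le_iff (by rw [Ne, ENNReal.ofReal_eq_zero]; linarith)
        ENNReal.ofReal_ne_top, ← ENNReal.tsum_mul_left]
      have hsub : G j0 ⊆ ⋃ n, (p.1 ⁻¹' E n ∩ G j0) := by
        intro u hu1
        have h2 := hE ⟨u, hu1, rfl⟩
        rw [Set.mem_iUnion] at h2
        obtain ⟨n, hn⟩ := h2
        rw [Set.mem_iUnion]
        exact ⟨n, hn, hu1⟩
      refine (mul_le_mul_right ((measure_mono hsub).trans (measure_iUnion_le _)) _).trans ?_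
      rw [← ENNReal.tsum_mul_left]
      refine ENNReal.tsum_le_tsum fun n => ?_
      refine one_set hl hp hj3 (fun t ht => ?_) (hdiam n)
      rw [hG] at ht
      exact ht
    have h2 := h1.trans (mul_le_mul_right (h (G j0)) _)
    rw [← mul_assoc, ← ENNReal.ofReal_mul hCl.le] at h2
    by_contra hne
    have h3 := (ENNReal.mul_le_mul_iff_left hne (measure_ne_top _ _)).1 h2
    rw [ENNReal.ofReal_le_ofReal_iff (by positivity)] at h3
    nlinarith
  have h0 : volume (⋃ j0, G (j0 + 3)) = 0 := measure_iUnion_null fun j0 => key _ (by omega)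
  rw [ae_iff]
  refine measure_mono_null ?_ h0
  intro t ht
  have ht' : ∀ᶠ j : ℕ in atTop, ¬ 2 * av l j ≤ occ p t (((1:ℝ)/2) ^ j) := not_frequently.1 ht
  obtain ⟨j0, hj0⟩ := eventually_atTop.1 ht'
  rw [Set.mem_iUnion]
  refine ⟨j0, ?_⟩
  rw [hG]
  intro j hj
  exact not_le.1 (hj0 j (by omega))

theorem occ_low {l : ℝ} (hl : 0 < l) {p : X} {t : unitInterval}
    (h : ∃ᶠ j : ℕ in atTop, 2 * av l j ≤ occ p t (((1:ℝ)/2) ^ j)) :
    ∃ᶠ r in 𝓝[>] (0:ℝ), 4 * l * ga r ≤ occ p t r := by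
  have ht : Tendsto (fun j : ℕ => ((1:ℝ)/2) ^ j) atTop (𝓝[>] 0) := by
    rw [tendsto_nhdsWithin_iff]
    refine ⟨tendsto_pow_atTop_nhds_zero_of_lt_one (by norm_num) (by norm_num), ?_⟩
    exact Eventually.of_forall fun j => by
      show (0:ℝ) < (1/2) ^ j
      positivity
  refine ht.frequently ((h.and_eventually (eventually_ge_atTop 3)).mono ?_)
  rintro j ⟨h1, h2⟩
  refine le_trans ?_ h1
  have hj3 : (3 : ℝ) ≤ j := by exact_mod_cast h2
  have hl2 : 0.6931471803 < Real.log 2 := Real.log_two_gt_d9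
  have hl2' : Real.log 2 < 0.6931471808 := Real.log_two_lt_d9
  have e1 : Real.log (1 / ((1:ℝ)/2) ^ j) = j * Real.log 2 := by
    rw [one_div, Real.log_inv, Real.log_pow, one_div, Real.log_inv]
    ring
  have hj2 : 1 ≤ (j : ℝ) * Real.log 2 := by nlinarith
  have e2 : Real.log (Real.log (1 / ((1:ℝ)/2) ^ j)) ≤ Real.log j := by
    rw [e1]
    refine Real.log_le_log (by linarith) ?_
    nlinarith
  have e3 : 0 ≤ Real.log (Real.log (1 / ((1:ℝ)/2) ^ j)) := by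
    rw [e1]
    exact Real.log_nonneg hj2
  unfold ga av
  have e4 := Real.rpow_le_rpow e3 e2 (by norm_num : (0:ℝ) ≤ 1/8)
  calc 4 * l * ((((1:ℝ)/2) ^ j) ^ (7/4 : ℝ) *
        Real.log (Real.log (1 / ((1:ℝ)/2) ^ j)) ^ (1/8 : ℝ)) ≤
      4 * l * ((((1:ℝ)/2) ^ j) ^ (7/4 : ℝ) * Real.log j ^ (1/8 : ℝ)) := by gcongr
    _ = _ := by ring

/-! ### Small radii -/

theorem ll_small : ∀ᶠ h in 𝓝[>] (0:ℝ), 0 < h ∧ h ≤ Real.exp (-Real.exp 1) ∧
    1 ≤ Real.log (Real.log (1 / h)) ∧ Real.log (Real.log (1 / h)) ≤ 6 * (1 / h) ^ (1/6 : ℝ) := by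
  have h1 : ∀ᶠ h in 𝓝[>] (0:ℝ), h < Real.exp (-Real.exp 1) :=
    eventually_nhdsWithin_of_eventually_nhds (gt_mem_nhds (Real.exp_pos _))
  filter_upwards [h1, self_mem_nhdsWithin] with h hh hh0
  have h0 : 0 < h := hh0
  obtain ⟨a1, a2⟩ := ll_ge h0 hh.le
  refine ⟨h0, hh.le, a2, ?_⟩
  have hpos : 0 < Real.log (1 / h) := lt_of_lt_of_le (Real.exp_pos _) a1
  have b1 : Real.log (Real.log (1 / h)) ≤ Real.log (1 / h) := by
    have := Real.log_le_sub_one_of_pos hpos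
    linarith
  have b2 := Real.log_le_rpow_div (x := 1 / h) (ε := 1/6) (by positivity) (by norm_num)
  linarith

theorem tend_rpow {a : ℝ} (ha : 0 < a) : Tendsto (fun h : ℝ => h ^ a) (𝓝[>] 0) (𝓝 0) := by
  have h1 : Tendsto (fun h : ℝ => h ^ a) (𝓝 0) (𝓝 ((0:ℝ) ^ a)) :=
    (Real.continuousAt_rpow_const 0 a (Or.inr ha.le)).tendsto
  rw [Real.zero_rpow ha.ne'] at h1
  exact h1.mono_left nhdsWithin_le_nhds

/-- Chung type lower bound -/
theorem chung {K : ℝ} (hK : 0 < K) : ∃ c : ℝ, 0 < c ∧ ∀ (p : X) (t : unitInterval), 0 < p.2 →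
    (∀ᶠ r in 𝓝[>] (0:ℝ), occ p t r ≤ K * ga r) →
    ∀ᶠ h in 𝓝[>] (0:ℝ), ∀ u v : unitInterval, u ≤ t → t ≤ v → h ≤ p.2 * ((v : ℝ) - u) →
      ∃ s : unitInterval, u ≤ s ∧ s ≤ v ∧
        c * (h ^ (4/7 : ℝ) / Real.log (Real.log (1 / h)) ^ (1/14 : ℝ)) ≤
          dist (p.1 s) (p.1 t) := by
  obtain ⟨c, hc⟩ : ∃ c : ℝ, c = min 1 ((1 / (2 * K)) ^ (4/7 : ℝ)) := ⟨_, rfl⟩
  have hc0 : 0 < c := by rw [hc]; positivity
  have hc1 : c ≤ 1 := by rw [hc]; exact min_le_left _ _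
  have hcK : K * c ^ (7/4 : ℝ) ≤ 1/2 := by
    have h1 : c ≤ (1 / (2 * K)) ^ (4/7 : ℝ) := by rw [hc]; exact min_le_right _ _
    have h2 := Real.rpow_le_rpow hc0.le h1 (by norm_num : (0:ℝ) ≤ 7/4)
    rw [← Real.rpow_mul (by positivity)] at h2
    norm_num at h2
    calc K * c ^ (7/4 : ℝ) ≤ K * (K⁻¹ * (1/2)) := by
          refine mul_le_mul_of_nonneg_left ?_ hK.le
          linarith
      _ = 1/2 := by field_simp
  refine ⟨c, hc0, fun p t hp hup => ?_⟩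
  obtain ⟨r0, hr0⟩ : ∃ r0 : ℝ → ℝ, r0 = fun h =>
    c * (h ^ (4/7 : ℝ) / Real.log (Real.log (1 / h)) ^ (1/14 : ℝ)) := ⟨_, rfl⟩
  have hle : ∀ᶠ h in 𝓝[>] (0:ℝ), r0 h ≤ h ^ (4/7 : ℝ) := by
    filter_upwards [ll_small] with h hh
    obtain ⟨a1, a2, a3, a4⟩ := hh
    rw [hr0]
    have b1 : 1 ≤ Real.log (Real.log (1 / h)) ^ (1/14 : ℝ) := Real.one_le_rpow a3 (by norm_num)
    have b2 : h ^ (4/7 : ℝ) / Real.log (Real.log (1 / h)) ^ (1/14 : ℝ) ≤ h ^ (4/7 : ℝ) :=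
      div_le_self (by positivity) b1
    have b3 : 0 ≤ h ^ (4/7 : ℝ) / Real.log (Real.log (1 / h)) ^ (1/14 : ℝ) := by positivity
    show c * _ ≤ _
    nlinarith
  have hpos : ∀ᶠ h in 𝓝[>] (0:ℝ), 0 < r0 h := by
    filter_upwards [ll_small] with h hh
    obtain ⟨a1, a2, a3, a4⟩ := hh
    rw [hr0]
    have : 0 < Real.log (Real.log (1 / h)) := by linarith
    show 0 < c * _
    positivity
  have htend : Tendsto r0 (𝓝[>] 0) (𝓝[>] 0) := by
    rw [tendsto_nhdsWithin_iff]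
    refine ⟨?_, hpos⟩
    refine squeeze_zero' (hpos.mono fun _ h => h.le) hle (tend_rpow (by norm_num))
  have hge : ∀ᶠ h in 𝓝[>] (0:ℝ), h ≤ r0 h := by
    have h1 : ∀ᶠ h in 𝓝[>] (0:ℝ), h ^ (1/3 : ℝ) < c / 6 :=
      (tend_rpow (by norm_num)).eventually (gt_mem_nhds (by positivity))
    have h2 : ∀ᶠ h in 𝓝[>] (0:ℝ), h < 1 :=
      eventually_nhdsWithin_of_eventually_nhds (gt_mem_nhds (by norm_num))
    filter_upwards [ll_small, h1, h2] with h hh hh2 hlt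
    obtain ⟨a1, a2, a3, a4⟩ := hh
    rw [hr0]
    have hL : 0 < Real.log (Real.log (1 / h)) := by linarith
    have b1 : Real.log (Real.log (1 / h)) ^ (1/14 : ℝ) ≤ 6 * h ^ (-(1/84) : ℝ) := by
      have c1 := Real.rpow_le_rpow hL.le a4 (by norm_num : (0:ℝ) ≤ 1/14)
      have c0 : (1 / h) ^ (1/6 * (1/14) : ℝ) = h ^ (-(1/84) : ℝ) := by
        rw [one_div, Real.inv_rpow a1.le, ← Real.rpow_neg a1.le]
        norm_num
      rw [Real.mul_rpow (by norm_num) (by positivity), ← Real.rpow_mul (by positivity), c0] at c1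
      refine c1.trans ?_
      have c2 : (6:ℝ) ^ (1/14 : ℝ) ≤ 6 := by
        calc (6:ℝ) ^ (1/14 : ℝ) ≤ (6:ℝ) ^ (1:ℝ) :=
              Real.rpow_le_rpow_of_exponent_le (by norm_num) (by norm_num)
          _ = 6 := Real.rpow_one _
      exact mul_le_mul_of_nonneg_right c2 (by positivity)
    show h ≤ c * (h ^ (4/7 : ℝ) / Real.log (Real.log (1 / h)) ^ (1/14 : ℝ))
    rw [← mul_div_assoc, le_div_iff₀ (by positivity)]
    have b2 : h * (6 * h ^ (-(1/84) : ℝ)) ≤ c * h ^ (4/7 : ℝ) := by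
      have c1 : h * h ^ (-(1/84) : ℝ) = h ^ (4/7 : ℝ) * (h ^ (1/3 : ℝ) * h ^ (1/12 : ℝ)) := by
        rw [← Real.rpow_add a1, ← Real.rpow_add a1]
        nth_rewrite 1 [← Real.rpow_one h]
        rw [← Real.rpow_add a1]
        norm_num
      have c2 : h ^ (1/12 : ℝ) ≤ 1 := Real.rpow_le_one a1.le hlt.le (by norm_num)
      have c3 : 0 < h ^ (1/3 : ℝ) := by positivity
      have c4 : 0 < h ^ (4/7 : ℝ) := by positivity
      have c5 : h ^ (1/3 : ℝ) * h ^ (1/12 : ℝ) ≤ c / 6 := by nlinarith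
      calc h * (6 * h ^ (-(1/84) : ℝ)) = 6 * (h * h ^ (-(1/84) : ℝ)) := by ring
        _ = 6 * (h ^ (4/7 : ℝ) * (h ^ (1/3 : ℝ) * h ^ (1/12 : ℝ))) := by rw [c1]
        _ ≤ 6 * (h ^ (4/7 : ℝ) * (c / 6)) := by gcongr
        _ = _ := by ring
    exact (mul_le_mul_of_nonneg_left b1 a1.le).trans b2
  filter_upwards [ll_small, hge, htend.eventually hup, hpos,
    htend.eventually ll_small] with h hh h2 h3 h4 h5 u v hu hv huv
  obtain ⟨a1, a2, a3, a4⟩ := hh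
  obtain ⟨b1, b2, b3, b4⟩ := h5
  by_contra hcon
  push Not at hcon
  have hL : 0 < Real.log (Real.log (1 / h)) := by linarith
  have hocc : p.2 * ((v : ℝ) - u) ≤ occ p t (r0 h) := by
    unfold occ
    refine mul_le_mul_of_nonneg_left ?_ hp.le
    have e1 : (v : ℝ) - u = (volume (Set.Icc u v)).toReal := by
      rw [unitInterval.volume_Icc, ENNReal.toReal_ofReal]
      have : (u : ℝ) ≤ v := hu.trans hv
      linarith
    rw [e1]
    refine ENNReal.toReal_mono (measure_ne_top _ _) (measure_mono fun s hs => ?_)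
    have := hcon s hs.1 hs.2
    rw [hr0]
    exact this.le
  have hll : Real.log (Real.log (1 / r0 h)) ≤ Real.log (Real.log (1 / h)) := by
    have e1 : Real.exp 1 ≤ Real.log (1 / r0 h) := (ll_ge h4 b2).1
    refine Real.log_le_log (lt_of_lt_of_le (Real.exp_pos _) e1) ?_
    exact Real.log_le_log (by positivity) (one_div_le_one_div_of_le a1 h2)
  have hga : K * ga (r0 h) ≤ 1/2 * h := by
    unfold ga
    have e1 : Real.log (Real.log (1 / r0 h)) ^ (1/8 : ℝ) ≤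
        Real.log (Real.log (1 / h)) ^ (1/8 : ℝ) :=
      Real.rpow_le_rpow (by linarith) hll (by norm_num)
    have e2 : r0 h ^ (7/4 : ℝ) = c ^ (7/4 : ℝ) * h /
        Real.log (Real.log (1 / h)) ^ (1/8 : ℝ) := by
      rw [hr0]
      show (c * (h ^ (4/7 : ℝ) / Real.log (Real.log (1 / h)) ^ (1/14 : ℝ))) ^ (7/4 : ℝ) = _
      rw [Real.mul_rpow hc0.le (by positivity), Real.div_rpow (by positivity) (by positivity),
        ← Real.rpow_mul a1.le, ← Real.rpow_mul hL.le]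
      norm_num
      ring
    rw [e2]
    calc K * (c ^ (7/4 : ℝ) * h / Real.log (Real.log (1 / h)) ^ (1/8 : ℝ) *
          Real.log (Real.log (1 / r0 h)) ^ (1/8 : ℝ)) ≤
        K * (c ^ (7/4 : ℝ) * h / Real.log (Real.log (1 / h)) ^ (1/8 : ℝ) *
          Real.log (Real.log (1 / h)) ^ (1/8 : ℝ)) := by gcongr
      _ = (K * c ^ (7/4 : ℝ)) * h := by field_simp
      _ ≤ 1/2 * h := mul_le_mul_of_nonneg_right hcK a1.le
  linarith

/-- lower bound for the occupation time -/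
theorem occ_lower {K : ℝ} (hK : 0 < K) : ∃ c : ℝ, 0 < c ∧ ∀ (p : X) (t : unitInterval),
    0 < p.2 → (∀ᶠ s : unitInterval in 𝓝 t,
      dist (p.1 s) (p.1 t) ≤ K * Pool.Agent.Y41.EV.phi (p.2 * |(s : ℝ) - t|)) →
    ∀ᶠ r in 𝓝[>] (0:ℝ),
      c * (r ^ (7/4 : ℝ) / Real.log (Real.log (1 / r)) ^ (3/4 : ℝ)) ≤ occ p t r := by
  obtain ⟨c, hc⟩ : ∃ c : ℝ, c = min 1 ((1 / (2 * K)) ^ (7/4 : ℝ)) := ⟨_, rfl⟩
  have hc0 : 0 < c := by rw [hc]; positivity
  have hc1 : c ≤ 1 := by rw [hc]; exact min_le_left _ _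
  have hcK : K * (2 * c ^ (4/7 : ℝ)) ≤ 1 := by
    have h1 : c ≤ (1 / (2 * K)) ^ (7/4 : ℝ) := by rw [hc]; exact min_le_right _ _
    have h2 := Real.rpow_le_rpow hc0.le h1 (by norm_num : (0:ℝ) ≤ 4/7)
    rw [← Real.rpow_mul (by positivity)] at h2
    norm_num at h2
    calc K * (2 * c ^ (4/7 : ℝ)) ≤ K * (2 * (K⁻¹ * (1/2))) := by
          refine mul_le_mul_of_nonneg_left ?_ hK.le
          linarith
      _ = 1 := by field_simp
  refine ⟨c, hc0, fun p t hp hup => ?_⟩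
  obtain ⟨x0, hx0⟩ : ∃ x0 : ℝ → ℝ, x0 = fun r =>
    c * (r ^ (7/4 : ℝ) / Real.log (Real.log (1 / r)) ^ (3/4 : ℝ)) := ⟨_, rfl⟩
  have hle : ∀ᶠ r in 𝓝[>] (0:ℝ), x0 r ≤ r ^ (7/4 : ℝ) := by
    filter_upwards [ll_small] with h hh
    obtain ⟨a1, a2, a3, a4⟩ := hh
    rw [hx0]
    have b1 : 1 ≤ Real.log (Real.log (1 / h)) ^ (3/4 : ℝ) := Real.one_le_rpow a3 (by norm_num)
    have b2 : h ^ (7/4 : ℝ) / Real.log (Real.log (1 / h)) ^ (3/4 : ℝ) ≤ h ^ (7/4 : ℝ) :=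
      div_le_self (by positivity) b1
    have b3 : 0 ≤ h ^ (7/4 : ℝ) / Real.log (Real.log (1 / h)) ^ (3/4 : ℝ) := by positivity
    show c * _ ≤ _
    nlinarith
  have hpos : ∀ᶠ r in 𝓝[>] (0:ℝ), 0 < x0 r := by
    filter_upwards [ll_small] with h hh
    obtain ⟨a1, a2, a3, a4⟩ := hh
    rw [hx0]
    have : 0 < Real.log (Real.log (1 / h)) := by linarith
    show 0 < c * _
    positivity
  have htend : Tendsto x0 (𝓝[>] 0) (𝓝[>] 0) := by
    rw [tendsto_nhdsWithin_iff]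
    refine ⟨?_, hpos⟩
    refine squeeze_zero' (hpos.mono fun _ h => h.le) hle (tend_rpow (by norm_num))
  have hge : ∀ᶠ r in 𝓝[>] (0:ℝ), r ^ (2:ℝ) ≤ x0 r := by
    have h1 : ∀ᶠ h in 𝓝[>] (0:ℝ), h ^ (1/8 : ℝ) < c / 6 :=
      (tend_rpow (by norm_num)).eventually (gt_mem_nhds (by positivity))
    filter_upwards [ll_small, h1] with h hh hh2
    obtain ⟨a1, a2, a3, a4⟩ := hh
    rw [hx0]
    have hL : 0 < Real.log (Real.log (1 / h)) := by linarith
    have b1 : Real.log (Real.log (1 / h)) ^ (3/4 : ℝ) ≤ 6 * h ^ (-(1/8) : ℝ) := by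
      have c1 := Real.rpow_le_rpow hL.le a4 (by norm_num : (0:ℝ) ≤ 3/4)
      have c0 : (1 / h) ^ (1/6 * (3/4) : ℝ) = h ^ (-(1/8) : ℝ) := by
        rw [one_div, Real.inv_rpow a1.le, ← Real.rpow_neg a1.le]
        norm_num
      rw [Real.mul_rpow (by norm_num) (by positivity), ← Real.rpow_mul (by positivity), c0] at c1
      refine c1.trans ?_
      have c2 : (6:ℝ) ^ (3/4 : ℝ) ≤ 6 := by
        calc (6:ℝ) ^ (3/4 : ℝ) ≤ (6:ℝ) ^ (1:ℝ) :=
              Real.rpow_le_rpow_of_exponent_le (by norm_num) (by norm_num)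
          _ = 6 := Real.rpow_one _
      exact mul_le_mul_of_nonneg_right c2 (by positivity)
    show h ^ (2:ℝ) ≤ c * (h ^ (7/4 : ℝ) / Real.log (Real.log (1 / h)) ^ (3/4 : ℝ))
    rw [← mul_div_assoc, le_div_iff₀ (by positivity)]
    have b2 : h ^ (2:ℝ) * (6 * h ^ (-(1/8) : ℝ)) ≤ c * h ^ (7/4 : ℝ) := by
      have c1 : h ^ (2:ℝ) * h ^ (-(1/8) : ℝ) = h ^ (7/4 : ℝ) * h ^ (1/8 : ℝ) := by
        rw [← Real.rpow_add a1, ← Real.rpow_add a1]
        norm_num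
      have c4 : 0 < h ^ (7/4 : ℝ) := by positivity
      calc h ^ (2:ℝ) * (6 * h ^ (-(1/8) : ℝ)) = 6 * (h ^ (2:ℝ) * h ^ (-(1/8) : ℝ)) := by ring
        _ = 6 * (h ^ (7/4 : ℝ) * h ^ (1/8 : ℝ)) := by rw [c1]
        _ ≤ 6 * (h ^ (7/4 : ℝ) * (c / 6)) := by gcongr
        _ = _ := by ring
    exact (mul_le_mul_of_nonneg_left b1 (by positivity)).trans b2
  -- the neighbourhood
  rw [Metric.eventually_nhds_iff] at hup
  obtain ⟨η, hη, hup⟩ := hup
  have hη1 : ∀ᶠ r in 𝓝[>] (0:ℝ), x0 r < p.2 * (min η 1 / 2) :=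
    (htend.mono_right nhdsWithin_le_nhds).eventually (gt_mem_nhds (by positivity))
  have hex : ∀ᶠ r in 𝓝[>] (0:ℝ), x0 r < Real.exp (-Real.exp 1) :=
    (htend.mono_right nhdsWithin_le_nhds).eventually (gt_mem_nhds (Real.exp_pos _))
  filter_upwards [ll_small, hge, hpos, hη1, hex] with r hh h2 h3 h4 h5
  obtain ⟨a1, a2, a3, a4⟩ := hh
  have hL : 0 < Real.log (Real.log (1 / r)) := by linarith
  obtain ⟨x, hx⟩ : ∃ x, x = x0 r := ⟨_, rfl⟩
  have hgoal : c * (r ^ (7/4 : ℝ) / Real.log (Real.log (1 / r)) ^ (3/4 : ℝ)) = x := by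
    rw [hx, hx0]
  rw [hgoal]
  rw [← hx] at h2 h3 h4 h5
  -- phi x
  have hll : Pool.Agent.Y41.EV.ll x ≤ 2 * Real.log (Real.log (1 / r)) := by
    unfold Pool.Agent.Y41.EV.ll
    refine max_le (by linarith) ?_
    have e1 : Real.log (1 / x) ≤ 2 * Real.log (1 / r) := by
      have e2 : Real.log (r ^ (2:ℝ)) ≤ Real.log x := Real.log_le_log (by positivity) h2
      rw [Real.log_rpow a1] at e2
      rw [one_div, Real.log_inv, one_div, Real.log_inv]
      linarith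
    have e3 : 0 < Real.log (1 / r) := lt_of_lt_of_le (Real.exp_pos _) (ll_ge a1 a2).1
    have e4 : 0 < Real.log (1 / x) := lt_of_lt_of_le (Real.exp_pos _) (ll_ge h3 h5.le).1
    have e5 := Real.log_le_log e4 e1
    rw [Real.log_mul (by norm_num) e3.ne'] at e5
    have e6 : Real.log 2 < 0.6931471808 := Real.log_two_lt_d9
    linarith
  have hll0 : 0 < Pool.Agent.Y41.EV.ll x := by
    unfold Pool.Agent.Y41.EV.ll
    exact lt_of_lt_of_le one_pos (le_max_left _ _)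
  have hphi : Pool.Agent.Y41.EV.phi x ≤ 2 * c ^ (4/7 : ℝ) * r := by
    unfold Pool.Agent.Y41.EV.phi
    have e1 : x ^ (4/7 : ℝ) = c ^ (4/7 : ℝ) * r /
        Real.log (Real.log (1 / r)) ^ (3/7 : ℝ) := by
      rw [← hgoal, Real.mul_rpow hc0.le (by positivity), Real.div_rpow (by positivity)
        (by positivity), ← Real.rpow_mul a1.le, ← Real.rpow_mul hL.le]
      norm_num
      ring
    have e2 : Pool.Agent.Y41.EV.ll x ^ (3/7 : ℝ) ≤
        2 * Real.log (Real.log (1 / r)) ^ (3/7 : ℝ) := by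
      have e3 := Real.rpow_le_rpow hll0.le hll (by norm_num : (0:ℝ) ≤ 3/7)
      rw [Real.mul_rpow (by norm_num) hL.le] at e3
      refine e3.trans (mul_le_mul_of_nonneg_right ?_ (by positivity))
      calc (2:ℝ) ^ (3/7 : ℝ) ≤ (2:ℝ) ^ (1:ℝ) :=
            Real.rpow_le_rpow_of_exponent_le (by norm_num) (by norm_num)
        _ = 2 := Real.rpow_one _
    rw [e1]
    calc c ^ (4/7 : ℝ) * r / Real.log (Real.log (1 / r)) ^ (3/7 : ℝ) *
          Pool.Agent.Y41.EV.ll x ^ (3/7 : ℝ) ≤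
        c ^ (4/7 : ℝ) * r / Real.log (Real.log (1 / r)) ^ (3/7 : ℝ) *
          (2 * Real.log (Real.log (1 / r)) ^ (3/7 : ℝ)) := by gcongr
      _ = _ := by field_simp
  -- the interval
  have hxT : x / p.2 < min η 1 / 2 := by rw [div_lt_iff₀ hp]; linarith
  have hxT0 : 0 < x / p.2 := by positivity
  have hm1 : min η 1 ≤ η := min_le_left _ _
  have hm2 : min η 1 ≤ 1 := min_le_right _ _
  have hin : ∀ s : unitInterval, |(s : ℝ) - t| ≤ x / p.2 → dist (p.1 s) (p.1 t) ≤ r := by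
    intro s hs
    have e1 : dist s t < η := by
      rw [Subtype.dist_eq, Real.dist_eq]
      linarith
    have e2 : p.2 * |(s : ℝ) - t| ≤ x := by
      rw [le_div_iff₀ hp] at hs
      linarith
    refine (hup e1).trans ?_
    have e3 := Pool.Agent.X145.EV.phi_mono (x := p.2 * |(s : ℝ) - t|) (X := x)
      (by positivity) e2 h5.le
    calc K * Pool.Agent.Y41.EV.phi (p.2 * |(s : ℝ) - t|) ≤ K * (2 * c ^ (4/7 : ℝ) * r) :=
          mul_le_mul_of_nonneg_left (e3.trans hphi) hK.le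
      _ = K * (2 * c ^ (4/7 : ℝ)) * r := by ring
      _ ≤ 1 * r := mul_le_mul_of_nonneg_right hcK a1.le
      _ = r := one_mul r
  have hvol : x / p.2 ≤ (volume {u : unitInterval | dist (p.1 u) (p.1 t) ≤ r}).toReal := by
    have ht0 := t.2.1
    have ht1 := t.2.2
    rcases le_total (t : ℝ) (1/2) with h6 | h6
    · obtain ⟨v, hv⟩ : ∃ v : unitInterval, (v : ℝ) = t + x / p.2 :=
        ⟨⟨t + x / p.2, by linarith, by linarith⟩, rfl⟩
      have e1 : x / p.2 = (volume (Set.Icc t v)).toReal := by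
        rw [unitInterval.volume_Icc, hv, ENNReal.toReal_ofReal (by linarith)]
        ring
      rw [e1]
      refine ENNReal.toReal_mono (measure_ne_top _ _) (measure_mono fun s hs => ?_)
      have g1 : (t : ℝ) ≤ s := hs.1
      have g2 : (s : ℝ) ≤ v := hs.2
      refine hin s ?_
      rw [abs_le]
      constructor <;> linarith
    · obtain ⟨v, hv⟩ : ∃ v : unitInterval, (v : ℝ) = t - x / p.2 :=
        ⟨⟨t - x / p.2, by linarith, by linarith⟩, rfl⟩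
      have e1 : x / p.2 = (volume (Set.Icc v t)).toReal := by
        rw [unitInterval.volume_Icc, hv, ENNReal.toReal_ofReal (by linarith)]
        ring
      rw [e1]
      refine ENNReal.toReal_mono (measure_ne_top _ _) (measure_mono fun s hs => ?_)
      have g1 : (v : ℝ) ≤ s := hs.1
      have g2 : (s : ℝ) ≤ t := hs.2
      refine hin s ?_
      rw [abs_le]
      constructor <;> linarith
  unfold occ
  calc x = p.2 * (x / p.2) := by field_simp
    _ ≤ _ := mul_le_mul_of_nonneg_left hvol hp.le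

/-! ### All together -/

theorem tt_top : ∃ c C : ℝ, 0 < c ∧ 0 < C ∧ ∀ R : Rect,
    (∀ δ : ℕ → ℝ, (∀ i, 0 < δ i) → Tendsto δ atTop (𝓝 0) →
      ∃ φ : ℕ → ℕ, StrictMono φ ∧ ∃ μ : ProbabilityMeasure X,
        Tendsto (fun i => R.law (δ (φ i))) atTop (𝓝 μ)) ∧
    ∀ δ : ℕ → ℝ, (∀ i, 0 < δ i) → Tendsto δ atTop (𝓝 0) → ∀ μ : ProbabilityMeasure X,
      Tendsto (fun i => R.law (δ i)) atTop (𝓝 μ) →
      ∀ᵐ p ∂(μ : Measure X), 0 < p.2 ∧ ∀ᵐ t : unitInterval,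
        (∀ᶠ s : unitInterval in 𝓝 t,
          dist (p.1 s) (p.1 t) ≤ C * Pool.Agent.Y41.EV.phi (p.2 * |(s : ℝ) - t|)) ∧
        (∃ᶠ s : unitInterval in 𝓝 t,
          c * Pool.Agent.Y41.EV.phi (p.2 * |(s : ℝ) - t|) < dist (p.1 s) (p.1 t)) ∧
        (∀ᶠ r in 𝓝[>] (0:ℝ), occ p t r ≤ C * ga r) ∧
        (∃ᶠ r in 𝓝[>] (0:ℝ), c * ga r ≤ occ p t r) ∧
        (∀ᶠ h in 𝓝[>] (0:ℝ), ∀ u v : unitInterval, u ≤ t → t ≤ v → h ≤ p.2 * ((v : ℝ) - u) →
          ∃ s : unitInterval, u ≤ s ∧ s ≤ v ∧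
            c * (h ^ (4/7 : ℝ) / Real.log (Real.log (1 / h)) ^ (1/14 : ℝ)) ≤
              dist (p.1 s) (p.1 t)) ∧
        (∀ᶠ r in 𝓝[>] (0:ℝ),
          c * (r ^ (7/4 : ℝ) / Real.log (Real.log (1 / r)) ^ (3/4 : ℝ)) ≤ occ p t r) := by
  obtain ⟨ca, Ca, c1, C1, hca, hCa, hc1, hC1, hev⟩ := Pool.Agent.X145.EV.ev_top
  obtain ⟨⟨c0, hc0, hL⟩, ⟨C0, hC0, hU⟩, -⟩ := Pool.Agent.Y985.ME.inputs
  obtain ⟨l, hl, hlow⟩ := occ_lat hC0 hU
  obtain ⟨cg, Cg, hcg, hCg, hgs⟩ := gauge_sets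
  -- the small constant
  obtain ⟨l', hl', hlC⟩ : ∃ l' : ℝ, 0 < l' ∧ Cl l' * Cg < 1 := by
    obtain ⟨q, hq⟩ : ∃ q : ℝ, q = 2 ^ (7/4 : ℝ) * 2 ^ (1/8 : ℝ) := ⟨_, rfl⟩
    have hq0 : 0 < q := by rw [hq]; positivity
    refine ⟨1 / (8 * q * Cg), by positivity, ?_⟩
    unfold Cl
    rw [← hq]
    have : 4 * (1 / (8 * q * Cg)) * q * Cg = 1/2 := by field_simp; norm_num
    linarith
  have hCl := Cl_pos hl
  obtain ⟨c2, hc2, hchung⟩ := chung hCl
  obtain ⟨c3, hc3, hocc⟩ := occ_lower hC1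
  obtain ⟨c, hc⟩ : ∃ c : ℝ, c = min (min c1 (4 * l')) (min c2 c3) := ⟨_, rfl⟩
  obtain ⟨C, hC⟩ : ∃ C : ℝ, C = max C1 (Cl l) := ⟨_, rfl⟩
  have k1 : c ≤ c1 := by rw [hc]; exact (min_le_left _ _).trans (min_le_left _ _)
  have k2 : c ≤ 4 * l' := by rw [hc]; exact (min_le_left _ _).trans (min_le_right _ _)
  have k3 : c ≤ c2 := by rw [hc]; exact (min_le_right _ _).trans (min_le_left _ _)
  have k4 : c ≤ c3 := by rw [hc]; exact (min_le_right _ _).trans (min_le_right _ _)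
  have k5 : C1 ≤ C := by rw [hC]; exact le_max_left _ _
  have k6 : Cl l ≤ C := by rw [hC]; exact le_max_right _ _
  have hphi0 : ∀ (T : ℝ) (s t : unitInterval), 0 < T →
      0 ≤ Pool.Agent.Y41.EV.phi (T * |(s : ℝ) - t|) := by
    intro T s t hT
    unfold Pool.Agent.Y41.EV.phi Pool.Agent.Y41.EV.ll
    have : (0:ℝ) ≤ max 1 (Real.log (Real.log (1 / (T * |(s : ℝ) - t|)))) :=
      zero_le_one.trans (le_max_left _ _)
    positivity
  have hga0 : ∀ᶠ r in 𝓝[>] (0:ℝ), 0 ≤ ga r := by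
    filter_upwards [ll_small] with r hr
    exact ga_nonneg hr.1.le hr.2.1
  refine ⟨c, C, by rw [hc]; positivity, lt_of_lt_of_le hC1 k5, fun R => ⟨(hev R).1, ?_⟩⟩
  intro δ hδ hlim μ hμ
  obtain ⟨A, w0, hA1, hw0, hlat⟩ := hlow R
  filter_upwards [(hev R).2 δ hδ hlim μ hμ, (hgs R).2 δ hδ hlim μ hμ,
    go_ae hl hA1 hw0 hlat hδ hlim hμ] with p g1 g2 g3
  obtain ⟨hp, -, -, m1, m2⟩ := g1
  refine ⟨hp, ?_⟩
  filter_upwards [m1, m2, times_ae hl hp g3,
    occ_low_ae hl' hCg hlC hp (fun S => (g2.2 S).2)] with t n1 n2 n3 n4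
  have o1 := occ_up hl hp n3
  have o2 := occ_low hl' n4
  refine ⟨?_, ?_, ?_, ?_, ?_, ?_⟩
  · filter_upwards [n1] with s hs
    exact hs.trans (mul_le_mul_of_nonneg_right k5 (hphi0 _ _ _ hp))
  · refine n2.mono fun s hs => lt_of_le_of_lt ?_ hs
    exact mul_le_mul_of_nonneg_right k1 (hphi0 _ _ _ hp)
  · filter_upwards [o1, hga0] with r h1 h2
    exact h1.trans (mul_le_mul_of_nonneg_right k6 h2)
  · refine (o2.and_eventually hga0).mono fun r hr => le_trans ?_ hr.1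
    exact mul_le_mul_of_nonneg_right k2 hr.2
  · filter_upwards [hchung p t hp o1, ll_small] with h h1 h2 u v hu hv huv
    obtain ⟨s, hs1, hs2, hs3⟩ := h1 u v hu hv huv
    refine ⟨s, hs1, hs2, le_trans ?_ hs3⟩
    have := h2.2.2.1
    have h4 : 0 ≤ Real.log (Real.log (1 / h)) := by linarith
    have h5 := h2.1
    exact mul_le_mul_of_nonneg_right k3 (by positivity)
  · filter_upwards [hocc p t hp n1, ll_small] with r h1 h2
    refine le_trans ?_ h1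
    have := h2.2.2.1
    have h4 : 0 ≤ Real.log (Real.log (1 / r)) := by linarith
    have h5 := h2.1
    exact mul_le_mul_of_nonneg_right k4 (by positivity)

end Pool.Agent.X145.TT
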